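import Pool.Agent.Helper95.HS.Stmts
import Pool.Agent.Helper76.LN.FF

/-! # Row FFX (MP_56acfd_mp): the field of the far charges, with explicit powers of `d` -/

set_option autoImplicit false

namespace Pool.Agent.Helper76.HS

open MeasureTheory Filter Pool.Agent.Helper95.PW Pool.Agent.Helper95.LN Pool.Agent.Helper95.CF
  Pool.Agent.Helper95.HS Pool.Agent.Helper76.LN.FF76

/-- row FFX -/
theorem FFX (hMVP : ST_MVP) (hPHA : ST_PHA) (hPHB : ST_PHB) (hPHC : ST_PHC) (hNBX : ST_NBX)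
    (hDEX : ST_DEX) : ST_FFX := by
  obtain ⟨CN, hCN, hN⟩ := hNBX
  obtain ⟨C0, hC0, hC⟩ := hPHC.2.2.1
  have hk := hPHC.2.1
  set K1 : ℝ := (32 * C0 + 1 / 2 * kap) / kap with hK1
  have hK10 : 0 < K1 := by
    rw [hK1]
    positivity
  refine ⟨2 * K1 ^ 2 * (kap + 1) + 4 * 256 ^ 2 * (CN + 1), by positivity, ?_⟩
  intro d n M X Z x hd1 hX hZ
  have hd : 0 < d := by linarith
  have hZ0 : ∀ j, 0 ≤ Z j := fun j => by rw [hZ j]; norm_num
  have hZ1 : ∀ j, Z j ≤ 1 := fun j => (hZ j).le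
  have hD0 : ∀ i, 0 ≤ Di d X Z x i := Di_nonneg d X Z x
  have hDs := Di_sum hDEX hPHC d hd X Z x hX
  have hNs := hN d n M X Z x hd1 hX hZ
  have hDn : 0 ≤ Dn (d / 8) X Z x := by
    unfold Dn
    apply mul_nonneg (by positivity)
    exact integral_nonneg (fun _ => Finset.sum_nonneg (fun _ _ => sq_nonneg _))
  have hρ : ∀ i, 0 < Di d X Z x i / d ^ 3 + 1 / d ^ 4 := by
    intro i
    have := hD0 i
    positivity
  refine ⟨fun i => K1 * Real.sqrt (Di d X Z x i / d ^ 3 + 1 / d ^ 4) +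
    (cnt X (3 / 2 * d) x i + 1) * (256 / d ^ 2), ?_, ?_⟩
  · intro i m y hy
    have hsq : 0 < Real.sqrt (Di d X Z x i / d ^ 3 + 1 / d ^ 4) := Real.sqrt_pos.2 (hρ i)
    have hss : Real.sqrt (Di d X Z x i / d ^ 3 + 1 / d ^ 4) ^ 2 =
        Di d X Z x i / d ^ 3 + 1 / d ^ 4 := Real.sq_sqrt (hρ i).le
    have h1 := far_le hMVP hPHA hPHB hPHC hDEX 1 d C0
      (1 / Real.sqrt (Di d X Z x i / d ^ 3 + 1 / d ^ 4))
      (by positivity) hC0 hC zero_le_one hd X Z x hX hZ0 hZ1 i m y hy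
    set R := Real.sqrt (Di d X Z x i / d ^ 3 + 1 / d ^ 4) with hR
    have h2 : 1 / R / 2 * (C0 / (d / 4) ^ 3) * Di d X Z x i ≤ 32 * C0 * R := by
      have h3 : 1 / R / 2 * (C0 / (d / 4) ^ 3) * Di d X Z x i =
          32 * C0 * (1 / R) * (Di d X Z x i / d ^ 3) := by
        field_simp
        ring
      rw [h3]
      have h3' : 32 * C0 * (1 / R) * (Di d X Z x i / d ^ 3) ≤ 32 * C0 * (1 / R) * R ^ 2 := by
        apply mul_le_mul_of_nonneg_left _ (by positivity)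
        rw [hss]
        have : 0 < 1 / d ^ 4 := by positivity
        linarith
      refine h3'.trans (le_of_eq ?_)
      field_simp
    have h4 : 1 / (2 * (1 / R)) = 1 / 2 * R := by
      field_simp
    have hQ : 4 / (d / 8) ^ 2 = 256 / d ^ 2 := by
      field_simp
      norm_num
    rw [h4, hQ] at h1
    have h5 : kap * |farE d X Z x i m y| ≤
        kap * (K1 * R + (cnt X (3 / 2 * d) x i + 1) * (256 / d ^ 2)) := by
      refine h1.trans ?_
      have h6 : kap * (K1 * R + (cnt X (3 / 2 * d) x i + 1) * (256 / d ^ 2)) =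
          32 * C0 * R + (1 / 2 * R + (cnt X (3 / 2 * d) x i + 1) * (256 / d ^ 2)) * kap := by
        rw [hK1]
        field_simp
        ring
      rw [h6]
      linarith
    exact le_of_mul_le_mul_left h5 hk
  · have h1 : ∀ i, (K1 * Real.sqrt (Di d X Z x i / d ^ 3 + 1 / d ^ 4) +
        (cnt X (3 / 2 * d) x i + 1) * (256 / d ^ 2)) ^ 2 ≤
        2 * K1 ^ 2 * (Di d X Z x i / d ^ 3 + 1 / d ^ 4) +
          4 * (256 / d ^ 2) ^ 2 * (cnt X (3 / 2 * d) x i ^ 2 + 1) := by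
      intro i
      have hss : Real.sqrt (Di d X Z x i / d ^ 3 + 1 / d ^ 4) ^ 2 =
        Di d X Z x i / d ^ 3 + 1 / d ^ 4 := Real.sq_sqrt (hρ i).le
      set R := Real.sqrt (Di d X Z x i / d ^ 3 + 1 / d ^ 4) with hR
      rw [← hss]
      set Q : ℝ := 256 / d ^ 2 with hQ
      have h2 : 0 ≤ (K1 * R - (cnt X (3 / 2 * d) x i + 1) * Q) ^ 2 := sq_nonneg _
      have h3 : 0 ≤ Q ^ 2 * (cnt X (3 / 2 * d) x i - 1) ^ 2 := by positivity
      nlinarith [h2, h3]
    refine (Finset.sum_le_sum (fun i _ => h1 i)).trans ?_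
    rw [Finset.sum_add_distrib, ← Finset.mul_sum, ← Finset.mul_sum, Finset.sum_add_distrib,
      Finset.sum_add_distrib, ← Finset.sum_div]
    simp only [Finset.sum_const, Finset.card_univ, Fintype.card_fin, nsmul_eq_mul, mul_one]
    have hM0 : (0 : ℝ) ≤ M := Nat.cast_nonneg M
    have e1 : (∑ i, Di d X Z x i) / d ^ 3 ≤ kap * (Dn (d / 8) X Z x / d ^ 3) := by
      rw [← mul_div_assoc]
      exact div_le_div_of_nonneg_right hDs (by positivity)
    have e2 : (256 / d ^ 2) ^ 2 * (∑ i, cnt X (3 / 2 * d) x i ^ 2 + (M : ℝ)) ≤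
        256 ^ 2 * ((CN + 1) * (M / d ^ 4 + Dn (d / 8) X Z x / d ^ 3)) := by
      have e3 : (256 / d ^ 2) ^ 2 * (∑ i, cnt X (3 / 2 * d) x i ^ 2 + (M : ℝ)) ≤
          (256 / d ^ 2) ^ 2 * ((CN + 1) * (M + d * Dn (d / 8) X Z x)) := by
        apply mul_le_mul_of_nonneg_left _ (by positivity)
        have : 0 ≤ d * Dn (d / 8) X Z x := mul_nonneg hd.le hDn
        nlinarith [hNs]
      refine e3.trans (le_of_eq ?_)
      field_simp
    have e4 : (M : ℝ) * (1 / d ^ 4) = M / d ^ 4 := by ring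
    rw [e4]
    set a : ℝ := (M : ℝ) / d ^ 4 with ha
    set b : ℝ := Dn (d / 8) X Z x / d ^ 3 with hb
    have ha0 : 0 ≤ a := by positivity
    have hb0 : 0 ≤ b := div_nonneg hDn (by positivity)
    have h4 : 2 * K1 ^ 2 * ((∑ i, Di d X Z x i) / d ^ 3 + a) ≤
        2 * K1 ^ 2 * ((kap + 1) * (a + b)) := by
      apply mul_le_mul_of_nonneg_left _ (by positivity)
      nlinarith [mul_nonneg hk.le ha0, e1]
    calc _ ≤ 2 * K1 ^ 2 * ((kap + 1) * (a + b)) +
          4 * (256 ^ 2 * ((CN + 1) * (a + b))) := by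
          refine add_le_add h4 ?_
          rw [mul_assoc]
          exact mul_le_mul_of_nonneg_left e2 (by norm_num)
      _ = _ := by ring

end Pool.Agent.Helper76.HS
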